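import Pool.Agent.Lib.MP_688fd0_co.OSF.H59.Rewire

/-! Undirected form of the rewiring lemma: every strand may be run forwards or backwards by the
cycle; the weight is antisymmetric. -/

namespace Pool.Agent.MP_688fd0_co.OSF.H59

variable {Q L : Type*}

/-- all vertices of the word `w` read from `x` (with the end) -/
def vs (d : Q → L → Q) (x : Q) (w : List L) : List Q := src d x w ++ [fin d x w]

/-- the reversed word -/
def rev (inv : L → L) (w : List L) : List L := (w.map inv).reverse

lemma rev_cons (inv : L → L) (a : L) (w : List L) : rev inv (a :: w) = rev inv w ++ [inv a] := by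
  simp [rev]

lemma rev_length (inv : L → L) (w : List L) : (rev inv w).length = w.length := by simp [rev]

lemma vs_cons (d : Q → L → Q) (x : Q) (a : L) (w : List L) :
    vs d x (a :: w) = x :: vs d (d x a) w := by simp [vs, src, fin]

lemma vs_ne_nil (d : Q → L → Q) (x : Q) (w : List L) : vs d x w ≠ [] := by simp [vs]

lemma fin_rev {d : Q → L → Q} {inv : L → L} (hinv : ∀ x a, d (d x a) (inv a) = x) (x : Q)
    (w : List L) : fin d (fin d x w) (rev inv w) = x := by
  induction w generalizing x with
  | nil => rfl
  | cons a w ih => rw [rev_cons, fin, fin_append, ih, fin, fin, hinv]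

lemma src_rev {d : Q → L → Q} {inv : L → L} (hinv : ∀ x a, d (d x a) (inv a) = x) (x : Q)
    (w : List L) : src d (fin d x w) (rev inv w) = (vs d x w).tail.reverse := by
  induction w generalizing x with
  | nil => rfl
  | cons a w ih =>
    rw [rev_cons, fin, src_append, ih, fin_rev hinv, vs_cons, List.tail_cons, src, src]
    rcases w with _ | ⟨b, w⟩
    · simp [vs, src, fin]
    · rw [vs_cons]; simp

lemma wt_rev {M : Type*} [AddCommGroup M] {d : Q → L → Q} {inv : L → L}
    (hinv : ∀ x a, d (d x a) (inv a) = x) {c : Q → L → M}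
    (hc : ∀ x a, c (d x a) (inv a) = - c x a) (x : Q) (w : List L) :
    wt d c (fin d x w) (rev inv w) = - wt d c x w := by
  induction w generalizing x with
  | nil => simp [rev, wt]
  | cons a w ih =>
    rw [rev_cons, fin, wt_append, ih, fin_rev hinv, wt, wt, wt, hc]
    abel

/-- the strand (start, old, new) in the direction `b` (`true`: backwards) -/
def dir (d : Q → L → Q) (inv : L → L) (s : Bool × Q × List L × List L) : Q × List L × List L :=
  if s.1 then (fin d s.2.1 s.2.2.1, rev inv s.2.2.1, rev inv s.2.2.2) else s.2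

/-- the vertex which is not a source -/
def exc (d : Q → L → Q) (s : Bool × Q × List L × List L) : Q :=
  if s.1 then s.2.1 else fin d s.2.1 s.2.2.1

lemma vs_perm {d : Q → L → Q} {inv : L → L} (hinv : ∀ x a, d (d x a) (inv a) = x)
    (s : Bool × Q × List L × List L) (w : List L) (hw : fin d s.2.1 w = fin d s.2.1 s.2.2.1) :
    (vs d s.2.1 w).Perm
      (exc d s :: src d (if s.1 then fin d s.2.1 w else s.2.1) (if s.1 then rev inv w else w)) := by
  rcases h : s.1 with _ | _
  · simp only [exc, h, Bool.false_eq_true, if_false]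
    rw [vs, hw]
    exact List.perm_append_singleton _ _
  · simp only [exc, h, if_true]
    rw [src_rev hinv]
    rcases w with _ | ⟨a, w⟩
    · simp [vs, src, fin]
    · rw [vs_cons, List.tail_cons]
      exact List.Perm.cons _ (List.reverse_perm _).symm

lemma flatMap_cons_perm {T A : Type*} (S : List T) (e : T → A) (g : T → List A) :
    (S.flatMap fun s => e s :: g s).Perm (S.map e ++ S.flatMap g) := by
  induction S with
  | nil => simp
  | cons s S ih =>
    simp only [List.flatMap_cons, List.map_cons, List.cons_append]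
    refine List.Perm.cons _ ?_
    refine (List.Perm.append_left _ ih).trans ?_
    rw [← List.append_assoc, ← List.append_assoc]
    exact List.Perm.append_right _ List.perm_append_comm

/-- REWIRING LEMMA, undirected form.  `S` is a list of (direction, start, old word, new word). -/
theorem rewireU [Fintype Q] [DecidableEq Q] {d : Q → L → Q} {inv : L → L}
    (hinv : ∀ x a, d (d x a) (inv a) = x) {lab : Q → L} (hs : Single d lab)
    (S : List (Bool × Q × List L × List L)) (hne : ∀ s ∈ S, s.2.2.1 ≠ [])
    (hold : ∀ s ∈ S, s.1 = false → Reads d lab s.2.1 s.2.2.1)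
    (hold' : ∀ s ∈ S, s.1 = true → Reads d lab (fin d s.2.1 s.2.2.1) (rev inv s.2.2.1))
    (hfin : ∀ s ∈ S, fin d s.2.1 s.2.2.1 = fin d s.2.1 s.2.2.2)
    (hnd : (S.flatMap fun s => vs d s.2.1 s.2.2.1).Nodup)
    (hperm : (S.flatMap fun s => vs d s.2.1 s.2.2.1).Perm
      (S.flatMap fun s => vs d s.2.1 s.2.2.2)) :
    ∃ lab' : Q → L, Single d lab' ∧
      (∀ x, x ∉ (S.flatMap fun s => vs d s.2.1 s.2.2.1) → lab' x = lab x) ∧
      (∀ x, lab' x = lab x ∨ ∃ s ∈ S, lab' x ∈ s.2.2.2 ∨ ∃ a ∈ s.2.2.2, lab' x = inv a) ∧
      (∀ s ∈ S, s.1 = false → Reads d lab' s.2.1 s.2.2.2) ∧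
      (∀ s ∈ S, s.1 = true → Reads d lab' (fin d s.2.1 s.2.2.1) (rev inv s.2.2.2)) ∧
      ∀ {M : Type*} [AddCommGroup M] (c : Q → L → M), (∀ x a, c (d x a) (inv a) = - c x a) →
        ∑ x, c x (lab' x) = ∑ x, c x (lab x) +
          (S.map fun s => if s.1 then wt d c s.2.1 s.2.2.1 - wt d c s.2.1 s.2.2.2
            else wt d c s.2.1 s.2.2.2 - wt d c s.2.1 s.2.2.1).sum := by
  classical
  have hmap : ∀ (w : Bool × Q × List L × List L → List L),
      (∀ s ∈ S, fin d s.2.1 (w s) = fin d s.2.1 s.2.2.1) →
      (S.flatMap fun s => vs d s.2.1 (w s)).Perm (S.map (exc d) ++ S.flatMap fun s =>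
        src d (if s.1 then fin d s.2.1 (w s) else s.2.1) (if s.1 then rev inv (w s) else w s)) := by
    intro w hw
    refine List.Perm.trans ?_ (flatMap_cons_perm S _ _)
    clear hne hold hold' hfin hnd hperm
    induction S with
    | nil => simp
    | cons s S ih =>
      simp only [List.flatMap_cons]
      exact (vs_perm hinv s (w s) (hw s (by simp))).append (ih fun t ht => hw t (by simp [ht]))
  set S' : List (Q × List L × List L) := S.map (dir d inv) with hS'
  have hold1 : oldS d S' = S.flatMap fun s =>
      src d (if s.1 then fin d s.2.1 s.2.2.1 else s.2.1) (if s.1 then rev inv s.2.2.1 else s.2.2.1) := by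
    simp only [hS', oldS, List.flatMap_map]
    congr 1
    funext s
    rcases h : s.1 with _ | _ <;> simp [dir, h]
  have hnew1 : newS d S' = S.flatMap fun s =>
      src d (if s.1 then fin d s.2.1 s.2.2.1 else s.2.1) (if s.1 then rev inv s.2.2.2 else s.2.2.2) := by
    simp only [hS', newS, List.flatMap_map]
    congr 1
    funext s
    rcases h : s.1 with _ | _ <;> simp [dir, h]
  have hnew2 : newS d S' = S.flatMap fun s =>
      src d (if s.1 then fin d s.2.1 s.2.2.2 else s.2.1) (if s.1 then rev inv s.2.2.2 else s.2.2.2) := by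
    rw [hnew1]
    clear_value S'
    clear hne hold hold' hnd hperm hmap hS' hold1 hnew1
    induction S with
    | nil => simp
    | cons s S ih =>
      simp only [List.flatMap_cons]
      rw [ih fun t ht => hfin t (by simp [ht]), hfin s (by simp)]
  have p1 := hmap (fun s => s.2.2.1) (fun s _ => rfl)
  have p2 := hmap (fun s => s.2.2.2) (fun s hs => (hfin s hs).symm)
  rw [← hold1] at p1
  rw [← hnew2] at p2
  have hperm' : (oldS d S').Perm (newS d S') :=
    (List.perm_append_left_iff _).1 ((p1.symm.trans hperm).trans p2)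
  have hnd' : (oldS d S').Nodup := (List.nodup_append.1 (p1.nodup_iff.1 hnd)).2.1
  have hmem : ∀ s ∈ S, dir d inv s ∈ S' := fun s hs => List.mem_map_of_mem hs
  obtain ⟨lab', h1, h2, h3, h4⟩ := rewire hs S'
    (by
      intro t ht
      obtain ⟨s, hsS, rfl⟩ := List.mem_map.1 ht
      have := hne s hsS
      rcases h : s.1 with _ | _
      · simpa [dir, h] using this
      · simp only [dir, h, if_true]
        intro h0
        apply this
        have := congrArg List.length h0
        rw [rev_length] at this
        exact List.length_eq_zero_iff.1 this)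
    (by
      intro t ht
      obtain ⟨s, hsS, rfl⟩ := List.mem_map.1 ht
      rcases h : s.1 with _ | _
      · simpa [dir, h] using hold s hsS h
      · simpa [dir, h] using hold' s hsS h)
    (by
      intro t ht
      obtain ⟨s, hsS, rfl⟩ := List.mem_map.1 ht
      rcases h : s.1 with _ | _
      · simpa [dir, h] using hfin s hsS
      · simp only [dir, h, if_true]
        rw [fin_rev hinv, hfin s hsS, fin_rev hinv])
    hnd' hperm'
  have hR1 : ∀ s ∈ S, s.1 = false → Reads d lab' s.2.1 s.2.2.2 := by
    intro s hsS h
    have := h3 _ (hmem s hsS)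
    simpa [dir, h] using this
  have hR2 : ∀ s ∈ S, s.1 = true → Reads d lab' (fin d s.2.1 s.2.2.1) (rev inv s.2.2.2) := by
    intro s hsS h
    have := h3 _ (hmem s hsS)
    simpa [dir, h] using this
  refine ⟨lab', h1, ?_, ?_, hR1, hR2, ?_⟩
  · intro x hx
    apply h2
    intro h
    apply hx
    exact (p1.mem_iff).2 (List.mem_append_right _ h)
  · intro x
    by_cases hx : x ∈ oldS d S'
    · right
      obtain ⟨t, ht, hxt⟩ := List.mem_flatMap.1 (hperm'.mem_iff.1 hx)
      obtain ⟨s, hsS, rfl⟩ := List.mem_map.1 ht
      rw [← map_fst_darts] at hxt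
      obtain ⟨p, hp, rfl⟩ := List.mem_map.1 hxt
      have h5 := h3 _ ht p hp
      have h6 : ∀ (x : Q) (w : List L), ∀ p ∈ darts d x w, p.2 ∈ w := by
        intro x w
        induction w generalizing x with
        | nil => simp [darts]
        | cons a w ih =>
          intro p hp
          rcases List.mem_cons.1 hp with rfl | hp
          · simp
          · exact List.mem_cons_of_mem _ (ih _ _ hp)
      refine ⟨s, hsS, ?_⟩
      have h7 := h6 _ _ p hp
      rw [h5]
      rcases h : s.1 with _ | _
      · left; simpa [dir, h] using h7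
      · right
        simp only [dir, h, if_true, rev, List.mem_reverse, List.mem_map] at h7
        obtain ⟨a, ha, hpa⟩ := h7
        exact ⟨a, ha, hpa.symm⟩
    · left; exact h2 x hx
  · intro M _ c hc
    have h5 := h4 c
    have h6 : (S'.map fun s => wt d c s.1 s.2.1).sum =
        (S.map fun s => if s.1 then - wt d c s.2.1 s.2.2.1 else wt d c s.2.1 s.2.2.1).sum := by
      simp only [hS', List.map_map]
      congr 1
      apply List.map_congr_left
      intro s _
      rcases h : s.1 with _ | _
      · simp [dir, h]
      · simp [dir, h, wt_rev hinv hc]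
    have h7 : (S'.map fun s => wt d c s.1 s.2.2).sum =
        (S.map fun s => if s.1 then - wt d c s.2.1 s.2.2.2 else wt d c s.2.1 s.2.2.2).sum := by
      simp only [hS', List.map_map]
      congr 1
      apply List.map_congr_left
      intro s hsS
      rcases h : s.1 with _ | _
      · simp [dir, h]
      · simp only [Function.comp, dir, h, if_true]
        rw [hfin s hsS, wt_rev hinv hc]
    rw [h6, h7] at h5
    have h8 : (S.map fun s => if s.1 then wt d c s.2.1 s.2.2.1 - wt d c s.2.1 s.2.2.2
            else wt d c s.2.1 s.2.2.2 - wt d c s.2.1 s.2.2.1).sum =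
        (S.map fun s => if s.1 then - wt d c s.2.1 s.2.2.2 else wt d c s.2.1 s.2.2.2).sum -
        (S.map fun s => if s.1 then - wt d c s.2.1 s.2.2.1 else wt d c s.2.1 s.2.2.1).sum := by
      clear * -
      induction S with
      | nil => simp
      | cons s S ih =>
        simp only [List.map_cons, List.sum_cons]
        rw [ih]
        rcases s.1 with _ | _ <;> simp <;> abel
    have h9 := eq_sub_of_add_eq h5
    rw [h8, h9, add_sub_assoc]

end Pool.Agent.MP_688fd0_co.OSF.H59
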