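import Pool.Agent.Lib.MP_688fd0_co.OSF.Iface
import Pool.Agent.Lib.MP_688fd0_co.OSF.H59.RewireU

/-! REWIRE: the statement of the board. -/

set_option autoImplicit false

namespace Pool.Agent.Lib.MP_688fd0_co.OSF.H59

open Pool.Agent.MP_688fd0_co.OSF.H59 (darts src vs Reads Single rewireU wt)

universe u v

section

variable {Q : Type u} [Group Q] (B : Lb.{u, v} Q)

/-- the step -/
def dd (x : Q) (g : B.L) : Q := x * B.q g

lemma fin_eq (x : Q) (l : List B.L) :
    Pool.Agent.MP_688fd0_co.OSF.H59.fin (dd B) x l = B.fin x l := by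
  induction l generalizing x with
  | nil => rfl
  | cons g l ih => exact ih _

lemma vs_eq (x : Q) (l : List B.L) : vs (dd B) x l = B.verts x l := by
  induction l generalizing x with
  | nil => rfl
  | cons g l ih =>
    rw [Pool.Agent.MP_688fd0_co.OSF.H59.vs_cons, ih]
    rfl

lemma rev_eq (l : List B.L) : Pool.Agent.MP_688fd0_co.OSF.H59.rev B.inv l = B.rev l := rfl

lemma reads_iff (T : Tour B) (x : Q) (l : List B.L) : Reads (dd B) T.lab x l ↔ T.Fol x l := by
  induction l generalizing x with
  | nil => simp [Reads, darts, Tour.Fol]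
  | cons g l ih =>
    rw [Tour.Fol, ← ih]
    constructor
    · intro h
      exact h.cons
    · rintro ⟨h1, h2⟩ p hp
      rcases List.mem_cons.1 hp with rfl | hp
      · exact h1
      · exact h2 p hp

lemma vol_eq {R : Type*} [CommRing R] (V : Vd B R) (x : Q) (l : List B.L) :
    wt (dd B) (fun x g => V.chi x * V.n g) x l = V.vol x l := by
  induction l generalizing x with
  | nil => rfl
  | cons g l ih =>
    rw [wt, ih]
    rfl

end

/-- REWIRE -/
theorem rewire : RewireS.{u, v} := by
  classical
  intro Q _ _ B T l hok hpass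
  have hinv : ∀ (x : Q) (g : B.L), dd B (dd B x g) (B.inv g) = x := fun x g => by
    unfold dd
    rw [B.q_inv, mul_inv_cancel_right]
  set S : List (Bool × Q × List B.L × List B.L) := l.map fun p => (!p.2, p.1.x, p.1.l, p.1.l')
    with hS
  have hvb : (S.flatMap fun s => vs (dd B) s.2.1 s.2.2.1) = ((l.map Prod.fst).flatMap Strand.vb) := by
    rw [hS, List.flatMap_map, List.flatMap_map]
    congr 1
    funext p
    exact vs_eq B _ _
  have hva : (S.flatMap fun s => vs (dd B) s.2.1 s.2.2.2) = ((l.map Prod.fst).flatMap Strand.va) := by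
    rw [hS, List.flatMap_map, List.flatMap_map]
    congr 1
    funext p
    exact vs_eq B _ _
  have hmem : ∀ p ∈ l, p.1 ∈ l.map Prod.fst := fun p hp => List.mem_map_of_mem hp
  obtain ⟨lab', h1, h2, -, -, -, h6⟩ := rewireU (d := dd B) (inv := B.inv) hinv (lab := T.lab)
    T.trans S (by
      intro s hs
      obtain ⟨p, hp, rfl⟩ := List.mem_map.1 hs
      exact hok.ne _ (hmem p hp)) (by
      intro s hs hb
      obtain ⟨p, hp, rfl⟩ := List.mem_map.1 hs
      have h := hpass p hp
      have hb' : p.2 = true := by simpa using hb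
      rw [Tour.Pass, hb', if_pos rfl] at h
      exact (reads_iff B T _ _).2 h) (by
      intro s hs hb
      obtain ⟨p, hp, rfl⟩ := List.mem_map.1 hs
      have h := hpass p hp
      have hb' : p.2 = false := by simpa using hb
      rw [Tour.Pass, hb', if_neg (by simp)] at h
      rw [fin_eq, rev_eq]
      exact (reads_iff B T _ _).2 h) (by
      intro s hs
      obtain ⟨p, hp, rfl⟩ := List.mem_map.1 hs
      rw [fin_eq, fin_eq]
      exact hok.fin _ (hmem p hp)) (by
      rw [hvb]
      exact hok.nodup) (by
      rw [hvb, hva]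
      exact hok.perm.symm)
  refine ⟨⟨lab', h1⟩, ?_, ?_⟩
  · intro y hy
    apply h2
    rw [hvb, List.mem_flatMap]
    rintro ⟨s, hs, hys⟩
    obtain ⟨p, hp, rfl⟩ := List.mem_map.1 hs
    exact hy p hp hys
  · intro R _ V
    have h := h6 (fun x g => V.chi x * V.n g) (by
      intro x g
      unfold dd
      rw [map_mul, V.n_inv, mul_neg, ← mul_assoc, mul_assoc (V.chi x), ← map_mul,
        mul_inv_cancel, map_one, mul_one])
    unfold Vd.tvol
    rw [h]
    congr 1
    unfold Vd.dlt
    rw [hS, List.map_map]
    congr 1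
    apply List.map_congr_left
    intro p _
    simp only [Function.comp, vol_eq]
    rcases p.2 with _ | _ <;> simp

end Pool.Agent.Lib.MP_688fd0_co.OSF.H59
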