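import Mathlib

/-! Rewiring lemma: in a single-cycle map x ↦ d x (lab x) on a finite set replace some strands
(words read from given starts) by other strands with the same ends and, altogether, the same
sources.  The result is a single-cycle map again. -/

namespace Pool.Agent.MP_688fd0_co.OSF.H59

variable {Q L : Type*}

/-- the darts (source, label) of the word `w` read from `x` -/
def darts (d : Q → L → Q) : Q → List L → List (Q × L)
  | _, [] => []
  | x, a :: w => (x, a) :: darts d (d x a) w

/-- the sources of the word `w` read from `x` -/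
def src (d : Q → L → Q) : Q → List L → List Q
  | _, [] => []
  | x, a :: w => x :: src d (d x a) w

/-- the end of the word `w` read from `x` -/
def fin (d : Q → L → Q) : Q → List L → Q
  | x, [] => x
  | x, a :: w => fin d (d x a) w

/-- weight of the word `w` read from `x` -/
def wt {M : Type*} [AddCommMonoid M] (d : Q → L → Q) (c : Q → L → M) : Q → List L → M
  | _, [] => 0
  | x, a :: w => c x a + wt d c (d x a) w

lemma src_length (d : Q → L → Q) (x : Q) (w : List L) : (src d x w).length = w.length := by
  induction w generalizing x with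
  | nil => rfl
  | cons a w ih => simp [src, ih]

lemma map_fst_darts (d : Q → L → Q) (x : Q) (w : List L) : (darts d x w).map Prod.fst = src d x w := by
  induction w generalizing x with
  | nil => rfl
  | cons a w ih => simp [src, darts, ih]

lemma src_append (d : Q → L → Q) (x : Q) (w w' : List L) :
    src d x (w ++ w') = src d x w ++ src d (fin d x w) w' := by
  induction w generalizing x with
  | nil => rfl
  | cons a w ih => simp [src, fin, ih]

lemma fin_append (d : Q → L → Q) (x : Q) (w w' : List L) :
    fin d x (w ++ w') = fin d (fin d x w) w' := by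
  induction w generalizing x with
  | nil => rfl
  | cons a w ih => simp [fin, ih]

lemma darts_append (d : Q → L → Q) (x : Q) (w w' : List L) :
    darts d x (w ++ w') = darts d x w ++ darts d (fin d x w) w' := by
  induction w generalizing x with
  | nil => rfl
  | cons a w ih => simp [darts, fin, ih]

lemma wt_append {M : Type*} [AddCommMonoid M] (d : Q → L → Q) (c : Q → L → M) (x : Q)
    (w w' : List L) : wt d c x (w ++ w') = wt d c x w + wt d c (fin d x w) w' := by
  induction w generalizing x with
  | nil => simp [wt, fin]
  | cons a w ih => simp [wt, fin, ih, add_assoc]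

lemma wt_eq_sum {M : Type*} [AddCommMonoid M] (d : Q → L → Q) (c : Q → L → M) (x : Q)
    (w : List L) : wt d c x w = ((darts d x w).map (fun p => c p.1 p.2)).sum := by
  induction w generalizing x with
  | nil => rfl
  | cons a w ih => simp [darts, wt, ih]

/-- `lab` reads the word `w` from `x` -/
def Reads (d : Q → L → Q) (lab : Q → L) (x : Q) (w : List L) : Prop :=
  ∀ p ∈ darts d x w, lab p.1 = p.2

/-- the map x ↦ d x (lab x) is a single cycle -/
def Single (d : Q → L → Q) (lab : Q → L) : Prop :=
  ∀ x y, ∃ k : ℕ, (fun z => d z (lab z))^[k] x = y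

lemma Reads.cons {d : Q → L → Q} {lab : Q → L} {x : Q} {a : L} {w : List L}
    (h : Reads d lab x (a :: w)) : lab x = a ∧ Reads d lab (d x a) w :=
  ⟨h (x, a) (by simp [darts]), fun p hp => h p (by simp [darts, hp])⟩

/-- reading a word: the sources are the iterates, the end is the last iterate -/
lemma Reads.fin_eq {d : Q → L → Q} {lab : Q → L} {x : Q} {w : List L} (h : Reads d lab x w) :
    fin d x w = (fun z => d z (lab z))^[w.length] x := by
  induction w generalizing x with
  | nil => rfl
  | cons a w ih =>
    obtain ⟨h1, h2⟩ := h.cons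
    rw [fin, ih h2, List.length_cons, Function.iterate_succ_apply, h1]

lemma Reads.src_getElem {d : Q → L → Q} {lab : Q → L} {x : Q} {w : List L}
    (h : Reads d lab x w) (t : ℕ) (ht : t < (src d x w).length) :
    (src d x w)[t] = (fun z => d z (lab z))^[t] x := by
  induction w generalizing x t with
  | nil => simp [src] at ht
  | cons a w ih =>
    obtain ⟨h1, h2⟩ := h.cons
    cases t with
    | zero => simp [src]
    | succ t =>
      simp only [src, List.getElem_cons_succ, Function.iterate_succ_apply]
      rw [ih h2 t (by simpa [src] using ht), h1]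

lemma Reads.mem_src {d : Q → L → Q} {lab : Q → L} {x : Q} {w : List L}
    (h : Reads d lab x w) {y : Q} (hy : y ∈ src d x w) :
    ∃ t < w.length, y = (fun z => d z (lab z))^[t] x := by
  obtain ⟨t, ht, rfl⟩ := List.getElem_of_mem hy
  exact ⟨t, by rwa [src_length] at ht, h.src_getElem t ht⟩

lemma Reads.iterate_mem {d : Q → L → Q} {lab : Q → L} {x : Q} {w : List L}
    (h : Reads d lab x w) {t : ℕ} (ht : t < w.length) :
    (fun z => d z (lab z))^[t] x ∈ src d x w := by
  rw [← h.src_getElem t (by rwa [src_length])]
  exact List.getElem_mem _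


/-- the update of `lab` by a list of darts -/
def upd [DecidableEq Q] (lab : Q → L) (D : List (Q × L)) (x : Q) : L :=
  ((D.find? (fun p => decide (p.1 = x))).map Prod.snd).getD (lab x)

lemma upd_of_notMem [DecidableEq Q] {lab : Q → L} {D : List (Q × L)} {x : Q}
    (hx : x ∉ D.map Prod.fst) : upd lab D x = lab x := by
  have : D.find? (fun p => decide (p.1 = x)) = none := by
    rw [List.find?_eq_none]
    intro p hp
    simp only [decide_eq_true_eq]
    rintro rfl
    exact hx (List.mem_map_of_mem hp)
  simp [upd, this]

lemma upd_of_mem [DecidableEq Q] {lab : Q → L} {D : List (Q × L)} (hD : (D.map Prod.fst).Nodup)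
    {p : Q × L} (hp : p ∈ D) : upd lab D p.1 = p.2 := by
  obtain ⟨q, hq⟩ : ∃ q, D.find? (fun q => decide (q.1 = p.1)) = some q := by
    rw [← Option.isSome_iff_exists, List.find?_isSome]
    exact ⟨p, hp, by simp⟩
  have h1 : q ∈ D := List.mem_of_find?_eq_some hq
  have h2 : q.1 = p.1 := by simpa using List.find?_some hq
  have h3 : q = p := List.inj_on_of_nodup_map hD h1 hp h2
  simp [upd, hq, h3]

lemma single_surj {d : Q → L → Q} {lab : Q → L} (h : Single d lab) :
    Function.Surjective (fun z => d z (lab z)) := by
  intro y
  obtain ⟨k, hk⟩ := h ((fun z => d z (lab z)) y) y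
  refine ⟨(fun z => d z (lab z))^[k] y, ?_⟩
  have h1 := Function.iterate_succ_apply' (fun z => d z (lab z)) k y
  rw [Function.iterate_succ_apply] at h1
  exact h1.symm.trans hk

lemma single_inj [Finite Q] {d : Q → L → Q} {lab : Q → L} (h : Single d lab) :
    Function.Injective (fun z => d z (lab z)) :=
  Finite.injective_iff_surjective.2 (single_surj h)

/-- all sources of the old strands of `S` (list of start, old word, new word) -/
def oldS (d : Q → L → Q) (S : List (Q × List L × List L)) : List Q :=
  S.flatMap fun s => src d s.1 s.2.1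

/-- all sources of the new strands of `S` -/
def newS (d : Q → L → Q) (S : List (Q × List L × List L)) : List Q :=
  S.flatMap fun s => src d s.1 s.2.2

def newD (d : Q → L → Q) (S : List (Q × List L × List L)) : List (Q × L) :=
  S.flatMap fun s => darts d s.1 s.2.2

def oldD (d : Q → L → Q) (S : List (Q × List L × List L)) : List (Q × L) :=
  S.flatMap fun s => darts d s.1 s.2.1

lemma map_newD (d : Q → L → Q) (S : List (Q × List L × List L)) :
    (newD d S).map Prod.fst = newS d S := by
  simp [newD, newS, List.map_flatMap, map_fst_darts]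

lemma map_oldD (d : Q → L → Q) (S : List (Q × List L × List L)) :
    (oldD d S).map Prod.fst = oldS d S := by
  simp [oldD, oldS, List.map_flatMap, map_fst_darts]

lemma sum_D {M : Type*} [AddCommMonoid M] (c : Q → L → M) (T : Type*) (S : List T)
    (g : T → List (Q × L)) (h : T → M) (hg : ∀ s, h s = ((g s).map (fun p => c p.1 p.2)).sum) :
    ((S.flatMap g).map (fun p => c p.1 p.2)).sum = (S.map h).sum := by
  induction S with
  | nil => simp
  | cons s S ih => simp [List.flatMap_cons, ih, hg]

lemma sum_reads [Fintype Q] [DecidableEq Q] {M : Type*} [AddCommMonoid M] (c : Q → L → M)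
    (lab : Q → L) (D : List (Q × L)) (hD : (D.map Prod.fst).Nodup)
    (hr : ∀ p ∈ D, lab p.1 = p.2) :
    ∑ x ∈ (D.map Prod.fst).toFinset, c x (lab x) = (D.map (fun p => c p.1 p.2)).sum := by
  rw [List.sum_toFinset _ hD, List.map_map]
  congr 1
  apply List.map_congr_left
  intro p hp
  simp [hr p hp]

/-- REWIRING LEMMA -/
theorem rewire [Fintype Q] [DecidableEq Q] {d : Q → L → Q} {lab : Q → L} (hs : Single d lab)
    (S : List (Q × List L × List L)) (hne : ∀ s ∈ S, s.2.1 ≠ [])
    (hold : ∀ s ∈ S, Reads d lab s.1 s.2.1)
    (hfin : ∀ s ∈ S, fin d s.1 s.2.1 = fin d s.1 s.2.2)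
    (hnd : (oldS d S).Nodup) (hperm : (oldS d S).Perm (newS d S)) :
    ∃ lab' : Q → L, Single d lab' ∧ (∀ x, x ∉ oldS d S → lab' x = lab x) ∧
      (∀ s ∈ S, Reads d lab' s.1 s.2.2) ∧
      ∀ {M : Type*} [AddCommMonoid M] (c : Q → L → M),
        ∑ x, c x (lab' x) + (S.map fun s => wt d c s.1 s.2.1).sum =
          ∑ x, c x (lab x) + (S.map fun s => wt d c s.1 s.2.2).sum := by
  classical
  have hnd' : (newS d S).Nodup := hperm.nodup_iff.1 hnd
  set lab' : Q → L := upd lab (newD d S) with hlab'
  have hout : ∀ x, x ∉ oldS d S → lab' x = lab x := fun x hx =>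
    upd_of_notMem (by rw [map_newD]; exact fun h => hx (hperm.mem_iff.2 h))
  have hread : ∀ s ∈ S, Reads d lab' s.1 s.2.2 := by
    intro s hs' p hp
    exact upd_of_mem (by rw [map_newD]; exact hnd') (List.mem_flatMap.2 ⟨s, hs', hp⟩)
  refine ⟨lab', ?_, hout, hread, ?_⟩
  · -- single cycle
    set f : Q → Q := fun z => d z (lab z) with hf
    set f' : Q → Q := fun z => d z (lab' z) with hf'
    have hinj : Function.Injective f := single_inj hs
    have hinjk : ∀ k, Function.Injective (f^[k]) := fun k => hinj.iterate k
    obtain ⟨hnd1, hnd2⟩ := List.nodup_flatMap.1 hnd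
    rcases S with _ | ⟨s0, S0⟩
    · have : lab' = lab := funext fun x => hout x (by simp [oldS])
      rw [this]; exact hs
    set S : List (Q × List L × List L) := s0 :: S0 with hS
    have hs0 : s0 ∈ S := by simp [hS]
    -- a source which is a start is the first source of its strand
    have hstart : ∀ s ∈ S, ∀ s' ∈ S, ∀ t < s'.2.1.length, f^[t] s'.1 = s.1 → t = 0 ∧ s' = s := by
      intro s h s' h' t ht he
      have m1 : s.1 ∈ src d s.1 s.2.1 := by
        have := (hold s h).iterate_mem (t := 0) (List.length_pos_of_ne_nil (hne s h))
        simpa using this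
      have m2 : f^[t] s'.1 ∈ src d s'.1 s'.2.1 := (hold s' h').iterate_mem ht
      by_cases hss : s' = s
      · subst hss
        refine ⟨?_, rfl⟩
        have n1 := hnd1 s' h
        have e1 := (hold s' h).src_getElem t (by rwa [src_length])
        have e2 := (hold s' h).src_getElem 0 (by rw [src_length]; omega)
        have : (src d s'.1 s'.2.1)[t]'(by rwa [src_length]) =
            (src d s'.1 s'.2.1)[0]'(by rw [src_length]; omega) := by
          rw [e1, e2]; simpa using he
        exact (List.Nodup.getElem_inj_iff n1).1 this
      · exfalso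
        have hd : List.Disjoint (src d s'.1 s'.2.1) (src d s.1 s.2.1) := by
          have hsym : Std.Symm (Function.onFun List.Disjoint
              fun s : Q × List L × List L => src d s.1 s.2.1) := ⟨fun a b h => h.symm⟩
          exact List.Pairwise.forall hnd2 h' h hss
        exact hd m2 (he ▸ m1)
    -- everything outside the interiors is reached
    have hP : ∀ k, ((f^[k] s0.1 ∉ oldS d S) ∨ ∃ s ∈ S, f^[k] s0.1 = s.1) →
        ∃ j, f'^[j] s0.1 = f^[k] s0.1 := by
      intro k
      induction k using Nat.strong_induction_on with
      | _ k ih =>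
        intro hk
        rcases k with _ | k
        · exact ⟨0, rfl⟩
        have hky : f^[k+1] s0.1 = f (f^[k] s0.1) := Function.iterate_succ_apply' f k s0.1
        by_cases hy : f^[k] s0.1 ∈ oldS d S
        · obtain ⟨s, hsS, hys⟩ := List.mem_flatMap.1 hy
          obtain ⟨t, ht, hyt⟩ := (hold s hsS).mem_src hys
          -- the strand is finished
          have hlast : t + 1 = s.2.1.length := by
            by_contra hcon
            have ht1 : t + 1 < s.2.1.length := by omega
            have e1 : f^[k+1] s0.1 = f^[t+1] s.1 := by
              rw [hky, hyt, ← Function.iterate_succ_apply' f]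
            rcases hk with hk | ⟨s', hs'S, hs'⟩
            · apply hk
              rw [e1]
              exact List.mem_flatMap.2 ⟨s, hsS, (hold s hsS).iterate_mem ht1⟩
            · have := hstart s' hs'S s hsS (t+1) ht1 (by rw [← e1]; exact hs')
              omega
          have htk : t ≤ k := by
            by_contra hcon
            have hkt : k < t := by omega
            have e2 : f^[k] (f^[t-k] s.1) = f^[k] s0.1 := by
              rw [← Function.iterate_add_apply, show k + (t - k) = t by omega]
              exact hyt.symm
            have e3 := hinjk k e2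
            have := hstart s0 hs0 s hsS (t-k) (by omega) e3
            omega
          have e4 : f^[k-t] s0.1 = s.1 := by
            have : f^[t] (f^[k-t] s0.1) = f^[t] s.1 := by
              rw [← Function.iterate_add_apply, show t + (k - t) = k by omega]
              exact hyt
            exact hinjk t this
          obtain ⟨j, hj⟩ := ih (k-t) (by omega) (Or.inr ⟨s, hsS, e4⟩)
          refine ⟨s.2.2.length + j, ?_⟩
          rw [Function.iterate_add_apply, hj, e4, ← (hread s hsS).fin_eq, ← hfin s hsS,
            (hold s hsS).fin_eq, ← hlast, hky, hyt, ← Function.iterate_succ_apply' f]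
        · obtain ⟨j, hj⟩ := ih k (by omega) (Or.inl hy)
          refine ⟨j+1, ?_⟩
          rw [Function.iterate_succ_apply', hj, hky]
          simp only [hf', hf]
          rw [hout _ hy]
    have hreach : ∀ y, ∃ j, f'^[j] s0.1 = y := by
      intro y
      by_cases hy : y ∈ oldS d S
      · obtain ⟨s, hsS, hys⟩ := List.mem_flatMap.1 (hperm.mem_iff.1 hy)
        obtain ⟨t, ht, hyt⟩ := (hread s hsS).mem_src hys
        obtain ⟨k, hk⟩ := hs s0.1 s.1
        obtain ⟨j, hj⟩ := hP k (Or.inr ⟨s, hsS, hk⟩)
        refine ⟨t + j, ?_⟩
        rw [Function.iterate_add_apply, hj]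
        rw [show f^[k] s0.1 = s.1 from hk]
        exact hyt.symm
      · obtain ⟨k, hk⟩ := hs s0.1 y
        obtain ⟨j, hj⟩ := hP k (Or.inl (by rw [show f^[k] s0.1 = y from hk]; exact hy))
        exact ⟨j, hj.trans hk⟩
    have hback : ∃ y, f' y = s0.1 := by
      obtain ⟨y, hy⟩ := single_surj hs s0.1
      by_cases hyo : y ∈ oldS d S
      · obtain ⟨s, hsS, hys⟩ := List.mem_flatMap.1 hyo
        obtain ⟨t, ht, hyt⟩ := (hold s hsS).mem_src hys
        have hy' : f^[t+1] s.1 = s0.1 := by
          rw [Function.iterate_succ_apply', ← hyt]; exact hy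
        have hlast : t + 1 = s.2.1.length := by
          by_contra hcon
          have := hstart s0 hs0 s hsS (t+1) (by omega) hy'
          omega
        have e5 : fin d s.1 s.2.2 = s0.1 := by
          rw [← hfin s hsS, (hold s hsS).fin_eq, ← hlast]; exact hy'
        -- the new word is nonempty, or the start is the end
        rcases hw : s.2.2.length with _ | m
        · have : s.2.2 = [] := List.length_eq_zero_iff.1 hw
          rw [this, fin] at e5
          -- the start of s is s0.1, hence s = s0 and it is a full turn; take any new strand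
          obtain ⟨s', hs'S, hs'⟩ := List.mem_flatMap.1
            (hperm.mem_iff.1 (List.mem_flatMap.2 ⟨s, hsS, (hold s hsS).iterate_mem ht⟩))
          exfalso
          have hall : ∀ z, z ∈ src d s.1 s.2.1 := by
            intro z
            obtain ⟨k, hk⟩ := hs s.1 z
            have hper : Function.IsPeriodicPt f (t+1) s.1 := by
              show f^[t+1] s.1 = s.1
              rw [hy', ← e5]
            have hk' : f^[k % (t+1)] s.1 = z := by
              rw [← hk]
              exact hper.iterate_mod_apply k
            rw [← hk']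
            apply (hold s hsS).iterate_mem
            rw [← hlast]
            exact Nat.mod_lt _ (by omega)
          have honly : ∀ s'' ∈ S, s'' = s := by
            intro s'' h''
            have m := hall s''.1
            obtain ⟨t', ht', he'⟩ := (hold s hsS).mem_src m
            exact ((hstart s'' h'' s hsS t' ht' he'.symm).2).symm
          have h0 := honly s' hs'S
          subst h0
          rw [this] at hs'
          simp [src] at hs'
        · refine ⟨f'^[m] s.1, ?_⟩
          rw [← Function.iterate_succ_apply' f' m, ← e5, (hread s hsS).fin_eq, hw]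
      · exact ⟨y, by simp only [hf']; rw [hout y hyo]; exact hy⟩
    -- conclude
    obtain ⟨y, hy⟩ := hback
    obtain ⟨j, hj⟩ := hreach y
    have hper : Function.IsPeriodicPt f' (j+1) s0.1 := by
      show f'^[j+1] s0.1 = s0.1
      rw [Function.iterate_succ_apply', hj, hy]
    intro a b
    obtain ⟨ja, hja⟩ := hreach a
    obtain ⟨jb, hjb⟩ := hreach b
    refine ⟨jb + (ja * (j+1) - ja), ?_⟩
    show f'^[jb + (ja * (j+1) - ja)] a = b
    rw [← hja, ← Function.iterate_add_apply,
      show jb + (ja * (j+1) - ja) + ja = jb + ja * (j+1) by
        have : ja ≤ ja * (j+1) := Nat.le_mul_of_pos_right _ (by omega)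
        omega, Function.iterate_add_apply,
      show f'^[ja * (j+1)] s0.1 = s0.1 from (hper.const_mul ja), hjb]
  · intro M _ c
    have h1 := sum_reads c lab (oldD d S) (by rw [map_oldD]; exact hnd) (by
      intro p hp
      obtain ⟨s, hsS, h⟩ := List.mem_flatMap.1 hp
      exact hold s hsS p h)
    have h2 := sum_reads c lab' (newD d S) (by rw [map_newD]; exact hnd') (by
      intro p hp
      obtain ⟨s, hsS, h⟩ := List.mem_flatMap.1 hp
      exact hread s hsS p h)
    rw [map_oldD] at h1
    rw [map_newD, ← List.toFinset_eq_of_perm _ _ hperm] at h2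
    have e1 := sum_D c _ S (fun s => darts d s.1 s.2.1) (fun s => wt d c s.1 s.2.1)
      (fun s => wt_eq_sum d c s.1 s.2.1)
    have e2 := sum_D c _ S (fun s => darts d s.1 s.2.2) (fun s => wt d c s.1 s.2.2)
      (fun s => wt_eq_sum d c s.1 s.2.2)
    have h1' : ∑ x ∈ (oldS d S).toFinset, c x (lab x) = (S.map fun s => wt d c s.1 s.2.1).sum :=
      h1.trans e1
    have h2' : ∑ x ∈ (oldS d S).toFinset, c x (lab' x) = (S.map fun s => wt d c s.1 s.2.2).sum :=
      h2.trans e2
    have h3 : ∑ x ∈ (oldS d S).toFinsetᶜ, c x (lab' x) = ∑ x ∈ (oldS d S).toFinsetᶜ, c x (lab x) := by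
      apply Finset.sum_congr rfl
      intro x hx
      rw [hout x (by simpa using hx)]
    rw [← Finset.sum_add_sum_compl (oldS d S).toFinset (fun x => c x (lab' x)),
      ← Finset.sum_add_sum_compl (oldS d S).toFinset (fun x => c x (lab x)), h3, h1', h2']
    abel

end Pool.Agent.MP_688fd0_co.OSF.H59
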